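import Pool.Agent.W406.PX.Stmts
set_option autoImplicit false

/-!
# PROJECT PX: the boundaries in the coordinate `vv (2 q) j₀`
-/

open Finset Filter Topology

namespace Pool.Agent.W571.PX.Geom2

open Pool.Agent.W406.PX
open Pool.Agent.H96R3.BC (vv)

theorem rpow_diff {A B s : ℝ} (hA : 0 < A) (hAB : A ≤ B) (hs0 : 0 ≤ s) (hs1 : s ≤ 1) :
    s * (B - A) * B ^ (s - 1) ≤ B ^ s - A ^ s ∧ B ^ s - A ^ s ≤ s * (B - A) * A ^ (s - 1) := by
  have hB : 0 < B := hA.trans_le hAB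
  constructor
  · have h1 : A = B * (1 + -((B - A) / B)) := by
      field_simp
      ring
    have h2 : -1 ≤ -((B - A) / B) := by
      have : (B - A) / B ≤ 1 := by
        rw [div_le_one hB]
        linarith
      linarith
    have h3 := rpow_one_add_le_one_add_mul_self h2 hs0 hs1
    have h4 : A ^ s = B ^ s * (1 + -((B - A) / B)) ^ s := by
      conv_lhs => rw [h1]
      rw [Real.mul_rpow hB.le (by linarith)]
    have h5 : A ^ s ≤ B ^ s * (1 + s * -((B - A) / B)) := by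
      rw [h4]
      exact mul_le_mul_of_nonneg_left h3 (Real.rpow_nonneg hB.le s)
    have h6 : B ^ (s - 1) = B ^ s / B := by
      rw [Real.rpow_sub hB, Real.rpow_one]
    rw [h6]
    have h7 : s * (B - A) * (B ^ s / B) = B ^ s - B ^ s * (1 + s * -((B - A) / B)) := by
      field_simp
      ring
    rw [h7]
    linarith
  · have h1 : B = A * (1 + (B - A) / A) := by
      field_simp
      ring
    have h2 : 0 ≤ (B - A) / A := div_nonneg (by linarith) hA.le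
    have h3 := rpow_one_add_le_one_add_mul_self (by linarith : (-1 : ℝ) ≤ (B - A) / A) hs0 hs1
    have h4 : B ^ s = A ^ s * (1 + (B - A) / A) ^ s := by
      conv_lhs => rw [h1]
      rw [Real.mul_rpow hA.le (by linarith)]
    have h5 : B ^ s ≤ A ^ s * (1 + s * ((B - A) / A)) := by
      rw [h4]
      exact mul_le_mul_of_nonneg_left h3 (Real.rpow_nonneg hA.le s)
    have h6 : A ^ (s - 1) = A ^ s / A := by
      rw [Real.rpow_sub hA, Real.rpow_one]
    rw [h6]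
    have h7 : s * (B - A) * (A ^ s / A) = A ^ s * (1 + s * ((B - A) / A)) - A ^ s := by
      field_simp
      ring
    rw [h7]
    linarith

theorem Fdiff {A B s lo hi ρ X : ℝ} (hlo : 0 < lo) (hA : lo ≤ A) (hAB : A ≤ B) (hB : B ≤ hi)
    (hs0 : 0 ≤ s) (hs1 : s ≤ 1) (hρ : hi ≤ ρ * lo) (hX : 0 < X) :
    (B / X) ^ s - (A / X) ^ s ≤ s * lo ^ (s - 1) / X ^ s * (B - A) ∧
    s * lo ^ (s - 1) / X ^ s * (B - A) ≤ ρ * ((B / X) ^ s - (A / X) ^ s) := by
  have hA0 : 0 < A := hlo.trans_le hA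
  have hB0 : 0 < B := hA0.trans_le hAB
  have hhi : 0 < hi := hB0.trans_le hB
  have hXs : 0 < X ^ s := Real.rpow_pos_of_pos hX s
  obtain ⟨h1, h2⟩ := rpow_diff hA0 hAB hs0 hs1
  rw [Real.div_rpow hB0.le hX.le, Real.div_rpow hA0.le hX.le, ← sub_div]
  constructor
  · rw [div_mul_eq_mul_div, div_le_div_iff_of_pos_right hXs]
    refine h2.trans ?_
    have h3 : A ^ (s - 1) ≤ lo ^ (s - 1) :=
      Real.rpow_le_rpow_of_nonpos hlo hA (by linarith)
    have h4 : 0 ≤ s * (B - A) := mul_nonneg hs0 (by linarith)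
    calc s * (B - A) * A ^ (s - 1) ≤ s * (B - A) * lo ^ (s - 1) :=
          mul_le_mul_of_nonneg_left h3 h4
      _ = s * lo ^ (s - 1) * (B - A) := by ring
  · rw [div_mul_eq_mul_div, ← mul_div_assoc, div_le_div_iff_of_pos_right hXs]
    have h3 : hi ^ (s - 1) ≤ B ^ (s - 1) :=
      Real.rpow_le_rpow_of_nonpos hB0 hB (by linarith)
    have h4 : 0 ≤ s * (B - A) := mul_nonneg hs0 (by linarith)
    have h5 : lo ^ (s - 1) ≤ ρ * hi ^ (s - 1) := by
      have h6 : (hi / lo) ^ (1 - s) ≤ hi / lo := by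
        have h7 : 1 ≤ hi / lo := by
          rw [one_le_div hlo]
          linarith
        calc (hi / lo) ^ (1 - s) ≤ (hi / lo) ^ (1 : ℝ) :=
              Real.rpow_le_rpow_of_exponent_le h7 (by linarith)
          _ = hi / lo := Real.rpow_one _
      have h7 : hi / lo ≤ ρ := by
        rw [div_le_iff₀ hlo]
        exact hρ
      have h8 : lo ^ (s - 1) = (hi / lo) ^ (1 - s) * hi ^ (s - 1) := by
        rw [Real.div_rpow hhi.le hlo.le]
        have h9 : lo ^ (s - 1) = (lo ^ (1 - s))⁻¹ := by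
          rw [← Real.rpow_neg hlo.le]
          congr 1
          ring
        have h10 : hi ^ (s - 1) = (hi ^ (1 - s))⁻¹ := by
          rw [← Real.rpow_neg hhi.le]
          congr 1
          ring
        have h11 : hi ^ (1 - s) ≠ 0 := (Real.rpow_pos_of_pos hhi _).ne'
        have h12 : lo ^ (1 - s) ≠ 0 := (Real.rpow_pos_of_pos hlo _).ne'
        rw [h9, h10]
        field_simp
      rw [h8]
      exact mul_le_mul_of_nonneg_right (h6.trans h7) (Real.rpow_pos_of_pos hhi _).le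
    have hρ0 : 0 ≤ ρ := by
      by_contra h
      push Not at h
      have : ρ * lo < 0 := mul_neg_of_neg_of_pos h hlo
      linarith
    calc s * lo ^ (s - 1) * (B - A) = (s * (B - A)) * lo ^ (s - 1) := by ring
      _ ≤ (s * (B - A)) * (ρ * hi ^ (s - 1)) := mul_le_mul_of_nonneg_left h5 h4
      _ = ρ * (s * (B - A) * hi ^ (s - 1)) := by ring
      _ ≤ ρ * (s * (B - A) * B ^ (s - 1)) :=
        mul_le_mul_of_nonneg_left (mul_le_mul_of_nonneg_left h3 h4) hρ0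
      _ ≤ ρ * (B ^ s - A ^ s) := mul_le_mul_of_nonneg_left h1 hρ0

theorem len_bounds {t : ℝ} (ht : 0 < t) (k : ℕ) (hk : 1 ≤ k) :
    k * t ^ (k - 1) ≤ (t + 1) ^ k - t ^ k ∧ (t + 1) ^ k - t ^ k ≤ k * (t + 1) ^ (k - 1) := by
  have ht1 : 0 < t + 1 := by linarith
  obtain ⟨k, rfl⟩ : ∃ l, k = l + 1 := ⟨k - 1, by omega⟩
  rw [Nat.add_sub_cancel]
  constructor
  · have h1 : (-2 : ℝ) ≤ 1 / t := by
      have : 0 < 1 / t := by positivity
      linarith
    have h2 := one_add_mul_le_pow h1 (k + 1)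
    have h3 : (t + 1) ^ (k + 1) = t ^ (k + 1) * (1 + 1 / t) ^ (k + 1) := by
      rw [← mul_pow]
      congr 1
      field_simp
    have h4 : t ^ (k + 1) * (1 + ((k + 1 : ℕ) : ℝ) * (1 / t)) ≤ (t + 1) ^ (k + 1) := by
      rw [h3]
      exact mul_le_mul_of_nonneg_left h2 (by positivity)
    have h5 : t ^ (k + 1) * (1 + ((k + 1 : ℕ) : ℝ) * (1 / t))
        = t ^ (k + 1) + ((k + 1 : ℕ) : ℝ) * t ^ k := by
      rw [pow_succ]
      field_simp
    linarith
  · have h1 : (-2 : ℝ) ≤ -(1 / (t + 1)) := by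
      have : 1 / (t + 1) ≤ 1 := by
        rw [div_le_one ht1]
        linarith
      linarith
    have h2 := one_add_mul_le_pow h1 (k + 1)
    have h3 : t ^ (k + 1) = (t + 1) ^ (k + 1) * (1 + -(1 / (t + 1))) ^ (k + 1) := by
      rw [← mul_pow]
      congr 1
      field_simp
      ring
    have h4 : (t + 1) ^ (k + 1) * (1 + ((k + 1 : ℕ) : ℝ) * -(1 / (t + 1))) ≤ t ^ (k + 1) := by
      rw [h3]
      exact mul_le_mul_of_nonneg_left h2 (by positivity)
    have h5 : (t + 1) ^ (k + 1) * (1 + ((k + 1 : ℕ) : ℝ) * -(1 / (t + 1)))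
        = (t + 1) ^ (k + 1) - ((k + 1 : ℕ) : ℝ) * (t + 1) ^ k := by
      rw [pow_succ]
      field_simp
      ring
    linarith

theorem exJ (q m : ℕ) : ∃ J₀ : ℕ, ∀ j : ℕ, J₀ ≤ j →
    ((((j : ℝ) + m + 1) / j) ^ (2 * q) ≤ 14 / 13) := by
  have h1 : Tendsto (fun j : ℕ => (1 + ((m : ℝ) + 1) / j) ^ (2 * q)) atTop
      (𝓝 ((1 + 0) ^ (2 * q))) :=
    ((tendsto_const_nhds).add (tendsto_const_div_atTop_nhds_zero_nat ((m : ℝ) + 1))).pow (2 * q)
  have h2 : ((1 : ℝ) + 0) ^ (2 * q) < 14 / 13 := by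
    rw [add_zero, one_pow]
    norm_num
  have h3 := (h1.eventually (gt_mem_nhds h2)).and (eventually_gt_atTop 0)
  obtain ⟨J, hJ⟩ := eventually_atTop.1 h3
  refine ⟨J, fun j hj => ?_⟩
  obtain ⟨h4, h5⟩ := hJ j hj
  have h6 : (j : ℝ) ≠ 0 := by
    have : (0 : ℝ) < j := by exact_mod_cast h5
    exact this.ne'
  have h7 : ((j : ℝ) + m + 1) / j = 1 + ((m : ℝ) + 1) / j := by
    field_simp
    ring
  rw [h7]
  exact h4.le

theorem task : TaskGeom2 := by
  refine ⟨1, fun q hq m hm => ?_⟩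
  obtain ⟨J, hJ⟩ := exJ q m
  refine ⟨max J 4, fun j₀ hj₀ b hb j hj => ?_⟩
  have hj₀4 : 4 ≤ j₀ := (le_max_right _ _).trans hj₀
  have hjj₀ : j₀ ≤ j := by nlinarith
  have hj4 : 4 ≤ j := hj₀4.trans hjj₀
  have hjR : (4 : ℝ) ≤ j := by exact_mod_cast hj4
  have hj0 : (0 : ℝ) < j := by linarith
  have hρ := hJ j (((le_max_left _ _).trans hj₀).trans hjj₀)
  set k := 2 * q with hk
  have hk2 : 2 ≤ k := by omega
  set ρ : ℝ := (((j : ℝ) + m + 1) / j) ^ k with hρd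
  set lo : ℝ := (j : ℝ) ^ k with hlod
  set hi : ℝ := ((j : ℝ) + m + 1) ^ k with hhid
  have hlo : 0 < lo := by positivity
  have hhilo : hi ≤ ρ * lo := by
    rw [hρd, hlod, hhid, div_pow, div_mul_cancel₀ _ (pow_pos hj0 k).ne']
  set X : ℝ := (j₀ : ℝ) ^ (2 * (2 * q)) with hXd
  have hj₀R : (0 : ℝ) < j₀ := by exact_mod_cast (by omega : 0 < j₀)
  have hX : 0 < X := by positivity
  set s : ℝ := 1 / (4 * ((2 * q : ℕ) : ℝ)) with hsd
  have hqR : (1 : ℝ) ≤ ((2 * q : ℕ) : ℝ) := by exact_mod_cast (by omega : 1 ≤ 2 * q)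
  have hs0 : 0 < s := by positivity
  have hs1 : s ≤ 1 := by
    rw [hsd, div_le_one (by positivity)]
    linarith
  set κ : ℝ := s * lo ^ (s - 1) / X ^ s with hκd
  have hκ : 0 < κ := by
    have h1 := Real.rpow_pos_of_pos hlo (s - 1)
    have h2 := Real.rpow_pos_of_pos hX s
    positivity
  set L : ℝ := k * (j : ℝ) ^ (k - 1) with hLd
  have hL8 : 8 ≤ L := by
    have h1 : (2 : ℝ) ≤ k := by exact_mod_cast hk2
    have h2 : (4 : ℝ) ≤ (j : ℝ) ^ (k - 1) := by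
      calc (4 : ℝ) ≤ j := hjR
        _ = (j : ℝ) ^ 1 := (pow_one _).symm
        _ ≤ (j : ℝ) ^ (k - 1) := pow_le_pow_right₀ (by linarith) (by omega)
    rw [hLd]
    nlinarith
  have hρ1 : 1 ≤ ρ := by
    refine one_le_pow₀ ?_
    rw [one_le_div hj0]
    have : (0 : ℝ) ≤ m := Nat.cast_nonneg m
    linarith
  -- lengths
  have hlen : ∀ t : ℕ, j ≤ t → t ≤ j + m →
      L ≤ ((t : ℝ) + 1) ^ k - (t : ℝ) ^ k ∧ ((t : ℝ) + 1) ^ k - (t : ℝ) ^ k ≤ ρ * L := by
    intro t ht1 ht2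
    have htR : (j : ℝ) ≤ t := by exact_mod_cast ht1
    have htR2 : (t : ℝ) ≤ j + m := by exact_mod_cast ht2
    obtain ⟨h1, h2⟩ := len_bounds (t := (t : ℝ)) (by linarith) k (by omega)
    constructor
    · refine le_trans ?_ h1
      rw [hLd]
      exact mul_le_mul_of_nonneg_left (pow_le_pow_left₀ hj0.le htR _) (Nat.cast_nonneg k)
    · refine h2.trans ?_
      have h3 : ((t : ℝ) + 1) ^ (k - 1) ≤ ((j : ℝ) + m + 1) ^ (k - 1) :=
        pow_le_pow_left₀ (by linarith) (by linarith) _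
      have h4 : (((j : ℝ) + m + 1) / j) ^ (k - 1) ≤ ρ := by
        refine pow_le_pow_right₀ ?_ (by omega)
        rw [one_le_div hj0]
        have : (0 : ℝ) ≤ m := Nat.cast_nonneg m
        linarith
      have h5 : ((j : ℝ) + m + 1) ^ (k - 1) = (((j : ℝ) + m + 1) / j) ^ (k - 1) * (j : ℝ) ^ (k - 1) := by
        rw [div_pow, div_mul_cancel₀ _ (pow_pos hj0 _).ne']
      have h6 : ((t : ℝ) + 1) ^ (k - 1) ≤ ρ * (j : ℝ) ^ (k - 1) := by
        refine h3.trans ?_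
        rw [h5]
        exact mul_le_mul_of_nonneg_right h4 (by positivity)
      rw [hLd]
      calc (k : ℝ) * ((t : ℝ) + 1) ^ (k - 1) ≤ k * (ρ * (j : ℝ) ^ (k - 1)) :=
            mul_le_mul_of_nonneg_left h6 (Nat.cast_nonneg k)
        _ = ρ * (k * (j : ℝ) ^ (k - 1)) := by ring
  -- the boundaries
  have hbR : ∀ t : ℕ, j ≤ t → (t : ℝ) ^ k ≤ b t ∧ 8 * (b t : ℝ) ≤ 7 * (t : ℝ) ^ k + ((t : ℝ) + 1) ^ k := by
    intro t ht
    obtain ⟨h1, h2⟩ := hb t (hj.trans ht)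
    exact ⟨by exact_mod_cast h1, by exact_mod_cast h2⟩
  have hblo : ∀ t : ℕ, j ≤ t → lo ≤ b t := by
    intro t ht
    have htR : (j : ℝ) ≤ t := by exact_mod_cast ht
    exact (pow_le_pow_left₀ hj0.le htR _).trans (hbR t ht).1
  have hbhi : ∀ t : ℕ, j ≤ t → t ≤ j + m → (b t : ℝ) ≤ hi := by
    intro t ht ht2
    have htR : (j : ℝ) ≤ t := by exact_mod_cast ht
    have htR2 : (t : ℝ) ≤ j + m := by exact_mod_cast ht2
    have h1 := (hbR t ht).2
    have h2 : (t : ℝ) ^ k ≤ hi := pow_le_pow_left₀ (by linarith) (by linarith) _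
    have h3 : ((t : ℝ) + 1) ^ k ≤ hi := pow_le_pow_left₀ (by linarith) (by linarith) _
    linarith
  have hgap : ∀ t : ℕ, j ≤ t → t + 1 ≤ j + m →
      7 / 8 * L ≤ (b (t + 1) : ℝ) - b t ∧ (b (t + 1) : ℝ) - b t ≤ 9 / 8 * (ρ * L) := by
    intro t ht ht2
    obtain ⟨h1, h2⟩ := hbR t ht
    obtain ⟨h3, h4⟩ := hbR (t + 1) (by omega)
    obtain ⟨h5, h6⟩ := hlen t ht (by omega)
    obtain ⟨h7, h8⟩ := hlen (t + 1) (by omega) ht2
    push_cast at h3 h4 h7 h8
    constructor <;> linarith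
  refine ⟨13 / 16 * (κ * L), by positivity, fun i hi' => ?_⟩
  have ht1 : j ≤ j + i := by omega
  have ht2 : j + i + 1 ≤ j + m := by omega
  obtain ⟨hg1, hg2⟩ := hgap (j + i) ht1 ht2
  have hb0 := hblo (j + i) ht1
  have hb1 := hbhi (j + i + 1) (by omega) ht2
  have hL0 : 0 < L := by linarith
  have hρL : ρ * L ≤ 14 / 13 * L := mul_le_mul_of_nonneg_right hρ hL0.le
  have hbb : (b (j + i) : ℝ) ≤ b (j + i + 1) := by linarith
  obtain ⟨hF1, hF2⟩ := Fdiff hlo hb0 hbb hb1 hs0.le hs1 hhilo hX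
  rw [← hκd] at hF1 hF2
  have hv : ∀ n : ℕ, vv (2 * q) j₀ n = ((n : ℝ) / X) ^ s := by
    intro n
    rw [vv, hXd, hsd]
  rw [hv, hv]
  have hdF : 0 ≤ ((b (j + i + 1) : ℝ) / X) ^ s - ((b (j + i) : ℝ) / X) ^ s := by
    have : ((b (j + i) : ℝ) / X) ^ s ≤ ((b (j + i + 1) : ℝ) / X) ^ s := by
      refine Real.rpow_le_rpow ?_ ?_ hs0.le
      · exact div_nonneg (Nat.cast_nonneg _) hX.le
      · exact (div_le_div_iff_of_pos_right hX).2 hbb
    linarith
  refine ⟨?_, ?_, ?_⟩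
  · have h1 : κ * (7 / 8 * L) ≤ ρ * (((b (j + i + 1) : ℝ) / X) ^ s - ((b (j + i) : ℝ) / X) ^ s) :=
      (mul_le_mul_of_nonneg_left hg1 hκ.le).trans hF2
    have h2 : ρ * (((b (j + i + 1) : ℝ) / X) ^ s - ((b (j + i) : ℝ) / X) ^ s)
        ≤ 14 / 13 * (((b (j + i + 1) : ℝ) / X) ^ s - ((b (j + i) : ℝ) / X) ^ s) :=
      mul_le_mul_of_nonneg_right hρ hdF
    linarith
  · have h1 : κ * ((b (j + i + 1) : ℝ) - b (j + i)) ≤ κ * (9 / 8 * (14 / 13 * L)) :=
      mul_le_mul_of_nonneg_left (by linarith) hκ.le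
    have h2 : κ * (9 / 8 * (14 / 13 * L)) ≤ 2 * (13 / 16 * (κ * L)) := by
      have : 0 < κ * L := mul_pos hκ hL0
      nlinarith
    linarith
  · intro u hu1 hu2
    have hκL : 0 < κ * L := mul_pos hκ hL0
    have hu0 : 0 < u := by
      have : 0 ≤ ((b (j + i) : ℝ) / X) ^ s :=
        Real.rpow_nonneg (div_nonneg (Nat.cast_nonneg _) hX.le) _
      linarith
    set y : ℝ := X * u ^ (1 / s) with hyd
    have hy0 : 0 < y := mul_pos hX (Real.rpow_pos_of_pos hu0 _)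
    have hyu : (y / X) ^ s = u := by
      rw [hyd, mul_div_cancel_left₀ _ hX.ne', ← Real.rpow_mul hu0.le, one_div,
        inv_mul_cancel₀ hs0.ne', Real.rpow_one]
    have hmon : ∀ a c : ℝ, 0 ≤ a → 0 ≤ c → ((a / X) ^ s ≤ (c / X) ^ s ↔ a ≤ c) := by
      intro a c ha hc
      rw [Real.rpow_le_rpow_iff (div_nonneg ha hX.le) (div_nonneg hc hX.le) hs0,
        div_le_div_iff_of_pos_right hX]
    have hby : (b (j + i) : ℝ) ≤ y := by
      rw [← hmon _ _ (Nat.cast_nonneg _) hy0.le, hyu]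
      linarith
    have hyb : y ≤ (b (j + i + 1) : ℝ) := by
      rw [← hmon _ _ hy0.le (Nat.cast_nonneg _), hyu]
      linarith
    have h1 := (Fdiff hlo hb0 hby (hyb.trans hb1) hs0.le hs1 hhilo hX).1
    have h2 := (Fdiff hlo (hb0.trans hby) hyb hb1 hs0.le hs1 hhilo hX).1
    rw [← hκd, hyu] at h1 h2
    have h3 : 13 / 64 * L ≤ y - b (j + i) := by
      have h4 : κ * (13 / 64 * L) ≤ κ * (y - b (j + i)) := by linarith
      exact le_of_mul_le_mul_left h4 hκ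
    have h4 : 13 / 64 * L ≤ (b (j + i + 1) : ℝ) - y := by
      have h4 : κ * (13 / 64 * L) ≤ κ * ((b (j + i + 1) : ℝ) - y) := by linarith
      exact le_of_mul_le_mul_left h4 hκ
    refine ⟨⌊y⌋₊, ?_, ?_, ?_⟩
    · have h5 : y - 1 < (⌊y⌋₊ : ℝ) := Nat.sub_one_lt_floor y
      linarith
    · have h5 : (⌊y⌋₊ : ℝ) ≤ y := Nat.floor_le hy0.le
      linarith
    · intro n
      rw [hv, Nat.le_floor_iff hy0.le, ← hmon _ _ (Nat.cast_nonneg _) hy0.le, hyu]

end Pool.Agent.W571.PX.Geom2
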