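import Pool.Agent.W406.PX.Stmts
set_option autoImplicit false

/-!
# PROJECT PX: linearity of the maps
-/

open Finset MeasureTheory intervalIntegral

namespace Pool.Agent.W571.PX.Lin

open Pool.Agent.W406.PX
open Pool.Agent.H96R3.BC (vv cf NN TaskLagA)
open Pool.Agent.H394R3.BC (Ker Ker_cont_left)

theorem be_ge_one {Q j' : ℕ} {B : ℕ → ℕ} {w : ℕ → ℝ → ℝ} {ε : ℝ} {ω : ℕ → ℝ}
    (h : Sys Q j' B w ε ω) (i : ℕ) : 1 ≤ be Q j' B i := by
  unfold be vv
  have hj : (0 : ℝ) < (j' : ℝ) ^ (2 * Q) := by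
    have h1 : (0 : ℝ) < j' := by
      have := h.hj
      exact_mod_cast (by omega : 0 < j')
    positivity
  have h1 : j' ^ (2 * Q) ≤ B i := h.low.trans (h.mono.monotone (Nat.zero_le i))
  have h2 : (j' : ℝ) ^ (2 * Q) ≤ (B i : ℝ) := by exact_mod_cast h1
  exact Real.one_le_rpow ((one_le_div hj).2 h2) (by positivity)

theorem ii_div {f : ℝ → ℝ} (hf : Continuous f) {a b : ℝ} (ha : 1 ≤ a) (hb : 1 ≤ b) :
    IntervalIntegrable (fun u => f u / u ^ 2) volume a b := by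
  refine ContinuousOn.intervalIntegrable ?_
  intro u hu
  have h1 : 1 ≤ u := by
    rcases Set.mem_uIcc.1 hu with h | h
    · exact ha.trans h.1
    · exact hb.trans h.1
  have h2 : u ^ 2 ≠ 0 := by positivity
  exact (hf.continuousAt.div (continuous_id.pow 2).continuousAt h2).continuousWithinAt

theorem Zf_sub {Q j' : ℕ} {B : ℕ → ℕ} {w : ℕ → ℝ → ℝ} {ε : ℝ} {ω : ℕ → ℝ}
    (h : Sys Q j' B w ε ω) {f f' : ℝ → ℝ} (hf : Continuous f) (hf' : Continuous f') (i : ℕ) :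
    Zf Q j' B (fun u => f u - f' u) i = Zf Q j' B f i - Zf Q j' B f' i := by
  unfold Zf
  rw [← sub_mul, ← integral_sub (ii_div hf (be_ge_one h 0) (be_ge_one h i))
    (ii_div hf' (be_ge_one h 0) (be_ge_one h i))]
  congr 1
  refine integral_congr (fun u _ => ?_)
  simp only
  rw [sub_div]

theorem int_mul_sub {f f' g : ℝ → ℝ} (hf : Continuous f) (hf' : Continuous f')
    (hg : Continuous g) (a b : ℝ) :
    ∫ u in a..b, (f u - f' u) * g u = (∫ u in a..b, f u * g u) - ∫ u in a..b, f' u * g u := by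
  have h1 : IntervalIntegrable (fun u => f u * g u) volume a b :=
    (hf.mul hg).intervalIntegrable a b
  have h2 : IntervalIntegrable (fun u => f' u * g u) volume a b :=
    (hf'.mul hg).intervalIntegrable a b
  rw [← integral_sub h1 h2]
  exact integral_congr (fun u _ => sub_mul _ _ _)

theorem XL_sub {Q j' : ℕ} {B : ℕ → ℕ} {w : ℕ → ℝ → ℝ} {ε : ℝ} {ω : ℕ → ℝ}
    (h : Sys Q j' B w ε ω) (c c' : ℕ → ℝ) {f f' : ℝ → ℝ} (hf : Continuous f)
    (hf' : Continuous f') (i p : ℕ) :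
    XL Q j' B w (fun n => c n - c' n) (fun u => f u - f' u) i p =
      XL Q j' B w c f i p - XL Q j' B w c' f' i p := by
  unfold XL
  rw [Zf_sub h hf hf', Zf_sub h hf hf', int_mul_sub hf hf' (h.wcont p), ← sub_div]
  congr 1
  have h1 : ∑ n ∈ Ioc (B i) (B (i + 1)), (c n - c' n) * (vv Q j' n) ^ 2 * w p (vv Q j' n)
      = ∑ n ∈ Ioc (B i) (B (i + 1)), c n * (vv Q j' n) ^ 2 * w p (vv Q j' n)
        - ∑ n ∈ Ioc (B i) (B (i + 1)), c' n * (vv Q j' n) ^ 2 * w p (vv Q j' n) := by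
    rw [← Finset.sum_sub_distrib]
    refine Finset.sum_congr rfl (fun n _ => ?_)
    ring
  rw [h1]
  ring

theorem co_sub {Q j' : ℕ} {B : ℕ → ℕ} {w : ℕ → ℝ → ℝ} {ε : ℝ} {ω : ℕ → ℝ}
    (h : Sys Q j' B w ε ω) (c c' : ℕ → ℝ) {f f' : ℝ → ℝ} (hf : Continuous f)
    (hf' : Continuous f') (i n : ℕ) :
    co Q j' B w (fun n => c n - c' n) (fun u => f u - f' u) i n =
      co Q j' B w c f i n - co Q j' B w c' f' i n := by
  unfold co
  rw [XL_sub h c c' hf hf']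
  split_ifs <;> ring

theorem cZ_sub {Q j' : ℕ} {B : ℕ → ℕ} {w : ℕ → ℝ → ℝ} {ε : ℝ} {ω : ℕ → ℝ}
    (h : Sys Q j' B w ε ω) (a a' a'' : ℕ → ℝ) (ha : ∀ n, a'' n = a n - a' n)
    {f f' g : ℝ → ℝ} (hf : Continuous f)
    (hf' : Continuous f') (hg : Continuous g) (i : ℕ) :
    cZ Q j' B a'' (fun u => f u - f' u) i g = cZ Q j' B a f i g - cZ Q j' B a' f' i g := by
  unfold cZ
  rw [Zf_sub h hf hf', Zf_sub h hf hf', int_mul_sub hf hf' hg]
  have h1 : ∑ n ∈ Ioc (B i) (B (i + 1)), a'' n * (vv Q j' n) ^ 2 * g (vv Q j' n)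
      = ∑ n ∈ Ioc (B i) (B (i + 1)), a n * (vv Q j' n) ^ 2 * g (vv Q j' n)
        - ∑ n ∈ Ioc (B i) (B (i + 1)), a' n * (vv Q j' n) ^ 2 * g (vv Q j' n) := by
    rw [← Finset.sum_sub_distrib]
    refine Finset.sum_congr rfl (fun n _ => ?_)
    rw [ha n]
    ring
  rw [h1]
  ring

theorem BL_sub {Q j' : ℕ} {B : ℕ → ℕ} {w : ℕ → ℝ → ℝ} {ε : ℝ} {ω : ℕ → ℝ}
    (h : Sys Q j' B w ε ω) (c c' : ℕ → ℝ) {f f' : ℝ → ℝ} (hf : Continuous f)
    (hf' : Continuous f') (i : ℕ) (v : ℝ) :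
    BL Q j' B w (fun n => c n - c' n) (fun u => f u - f' u) i v =
      BL Q j' B w c f i v - BL Q j' B w c' f' i v := by
  unfold BL
  exact cZ_sub h _ _ _ (fun n => co_sub h c c' hf hf' i n) hf hf' (Ker_cont_left _ v) i

theorem task : TaskLin := by
  intro Q j' B w ε ω h c c' f f' hf hf'
  refine ⟨fun i p => XL_sub h c c' hf hf' i p, fun i v => BL_sub h c c' hf hf' i v, ?_⟩
  intro v h1 h2
  unfold FL
  rw [int_mul_sub hf hf' (Ker_cont_left _ v)]
  have h3 : (fun i => BL Q j' B w (fun n => c n - c' n) (fun u => f u - f' u) i v)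
      = fun i => BL Q j' B w c f i v - BL Q j' B w c' f' i v := by
    funext i
    exact BL_sub h c c' hf hf' i v
  rw [h3, h1.tsum_sub h2]
  ring

end Pool.Agent.W571.PX.Lin
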